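import Pool.Agent.Q82.TW11

/-! # A fibered holomorphic partially hyperbolic diffeomorphism of a compact complex fourfold with
nowhere holomorphic center distribution (MP_5114ef_an, Q1) -/

open Set Topology Manifold ContDiff Pool.Agent.Q82.TWD

namespace Pool.Agent.Results.MP_5114ef_an.NowhereHolomorphicCenter

/-- There are a compact connected complex manifold `M` of dimension four, a biholomorphic map `f`
of `M`, a partially hyperbolic splitting `Es ⊕ Ec ⊕ Eu` for `f` and a fibration of `M` over a
topological manifold of dimension six with compact connected fibres, whose fibres are tangent to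
`Ec` (so `f` is fibered), such that `Ec` is spanned by holomorphic vector fields over no nonempty
open set. The bundles have ranks two, one and one. -/
theorem result : ∃ (E : Type) (_ : NormedAddCommGroup E) (_ : NormedSpace ℂ E) (M : Type)
    (_ : TopologicalSpace M) (_ : T2Space M) (_ : CompactSpace M) (_ : ConnectedSpace M)
    (_ : ChartedSpace E M) (_ : IsManifold 𝓘(ℂ, E) ω M) (f : M ≃ₘ^ω⟮𝓘(ℂ, E), 𝓘(ℂ, E)⟯ M)
    (Es Ec Eu : Subspaces E M), Module.finrank ℂ E = 4 ∧ IsPartiallyHyperbolic f Es Ec Eu ∧
    IsFiberedOver 6 Ec ∧ ContinuousSubbundle 2 Es ∧ ContinuousSubbundle 1 Ec ∧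
    ContinuousSubbundle 1 Eu ∧ NowhereHolomorphic Ec :=
  ⟨Q82.TW.E4, inferInstance, inferInstance, Q82.TW.MM, inferInstance, inferInstance,
    inferInstance, inferInstance, inferInstance,
    Q82.TW.instManifold _, Q82.TW.ffD, Q82.TW.Esb, Q82.TW.Ecb, Q82.TW.Eub, Q82.TW.finrank_E4,
    Q82.TW.ph, Q82.TW.fiberedOver, Q82.TW.contS, Q82.TW.contC, Q82.TW.contU, Q82.TW.not_holo⟩

end Pool.Agent.Results.MP_5114ef_an.NowhereHolomorphicCenter
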